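import Mathlib

set_option autoImplicit false

/-! # The equation `a ^ 4 - b ^ 4 = c ^ 2` has no solutions with coprime `a`, `b`, `b c ≠ 0` -/

namespace Pool.Agent.L5helper15.SP

theorem sq_of_mul {m n c : ℤ} (hm : 0 < m) (hn : 0 < n) (h : Int.gcd m n = 1) (he : m * n = c ^ 2) :
    (∃ u : ℤ, m = u ^ 2) ∧ ∃ v : ℤ, n = v ^ 2 := by
  constructor
  · obtain ⟨u, hu | hu⟩ := Int.sq_of_gcd_eq_one h he
    · exact ⟨u, hu⟩
    · nlinarith [sq_nonneg u]
  · obtain ⟨u, hu | hu⟩ := Int.sq_of_gcd_eq_one (a := n) (b := m) (by rw [Int.gcd_comm]; exact h)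
      (by rw [mul_comm]; exact he)
    · exact ⟨u, hu⟩
    · nlinarith [sq_nonneg u]

theorem four_diff (N : ℕ) : ∀ a b c : ℤ, a.natAbs ≤ N → b ≠ 0 → c ≠ 0 → Int.gcd a b = 1 →
    a ^ 4 - b ^ 4 ≠ c ^ 2 := by
  induction N with
  | zero =>
    intro a b c ha hb hc hab h
    have : a = 0 := by omega
    subst this
    have h1 : 0 < b ^ 4 := by positivity
    have h2 : 0 < c ^ 2 := by positivity
    nlinarith
  | succ N ih =>
    intro a b c ha hb hc hab h
    have ha0 : a ≠ 0 := by
      rintro rfl
      have h1 : 0 < b ^ 4 := by positivity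
      have h2 : 0 < c ^ 2 := by positivity
      nlinarith
    have hcopab : IsCoprime a b := Int.isCoprime_iff_gcd_eq_one.mpr hab
    have hbc : IsCoprime (b ^ 2) c := by
      have h1 : IsCoprime (b ^ 4) (c ^ 2) := by
        rw [← h]
        have : IsCoprime (b ^ 4) (a ^ 4) := (hcopab.symm.pow)
        have h2 := this.add_mul_left_right (-1)
        rwa [show a ^ 4 + b ^ 4 * -1 = a ^ 4 - b ^ 4 by ring] at h2
      exact (IsCoprime.pow_left_iff (m := 4) (by norm_num)).mp
        ((IsCoprime.pow_right_iff (m := 2) (by norm_num)).mp h1) |>.pow_left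
    have hgbc : Int.gcd (b ^ 2) c = 1 := Int.isCoprime_iff_gcd_eq_one.mp hbc
    rcases Int.emod_two_eq_zero_or_one b with hb2 | hb2
    · -- `b` even
      have hc2 : c % 2 = 1 := by
        rcases Int.emod_two_eq_zero_or_one c with h1 | h1
        · exfalso
          have e1 : (2 : ℤ) ∣ b ^ 2 := (Int.dvd_of_emod_eq_zero hb2).trans (dvd_pow_self _ two_ne_zero)
          have e2 : (2 : ℤ) ∣ c := Int.dvd_of_emod_eq_zero h1
          have := hbc.isUnit_of_dvd' e1 e2
          rw [Int.isUnit_iff] at this
          omega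
        · exact h1
      have hP : PythagoreanTriple c (b ^ 2) (a ^ 2) := by
        unfold PythagoreanTriple
        linear_combination -h
      obtain ⟨m, n, e1, e2, e3, e4, e5, e6⟩ := hP.coprime_classification' (by rw [Int.gcd_comm]; exact hgbc)
        hc2 (by positivity)
      have hb2pos : 0 < b ^ 2 := by positivity
      have hmpos : 0 < m := by
        rcases lt_or_eq_of_le e6 with h1 | h1
        · exact h1
        · rw [← h1] at e2; simp at e2; exact absurd e2 hb
      have hnpos : 0 < n := by
        by_contra hcon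
        push Not at hcon
        nlinarith
      obtain ⟨b', rfl⟩ := Int.dvd_of_emod_eq_zero hb2
      obtain ⟨u, v, huv, hu, hv, hco⟩ : ∃ u v : ℤ, a ^ 2 = (v ^ 2) ^ 2 + (2 * u ^ 2) ^ 2 ∧ u ≠ 0 ∧ v % 2 = 1 ∧
          Int.gcd (v ^ 2) (2 * u ^ 2) = 1 := by
        rcases e5 with ⟨e5, e7⟩ | ⟨e7, e5⟩
        · obtain ⟨m', rfl⟩ := Int.dvd_of_emod_eq_zero e5
          have h1 : m' * n = b' ^ 2 := by nlinarith
          have h2 : Int.gcd m' n = 1 := by
            have := Int.isCoprime_iff_gcd_eq_one.mpr e4
            exact Int.isCoprime_iff_gcd_eq_one.mp this.of_mul_left_right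
          obtain ⟨⟨u, hu⟩, v, hv⟩ := sq_of_mul (by omega) hnpos h2 h1
          refine ⟨u, v, ?_, ?_, ?_, ?_⟩
          · rw [e3, hu, hv]; ring
          · rintro rfl; simp at hu; omega
          · rcases Int.emod_two_eq_zero_or_one v with h3 | h3
            · exfalso
              obtain ⟨w, rfl⟩ := Int.dvd_of_emod_eq_zero h3
              rw [hv] at e7
              have : (2 * w) ^ 2 = 2 * (2 * w ^ 2) := by ring
              omega
            · exact h3
          · rw [← hu, ← hv, Int.gcd_comm]; exact e4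
        · obtain ⟨n', rfl⟩ := Int.dvd_of_emod_eq_zero e5
          have h1 : m * n' = b' ^ 2 := by nlinarith
          have h2 : Int.gcd m n' = 1 := by
            have := Int.isCoprime_iff_gcd_eq_one.mpr e4
            exact Int.isCoprime_iff_gcd_eq_one.mp this.of_mul_right_right
          obtain ⟨⟨v, hv⟩, u, hu⟩ := sq_of_mul hmpos (by omega) h2 h1
          refine ⟨u, v, ?_, ?_, ?_, ?_⟩
          · rw [e3, hu, hv]
          · rintro rfl; simp at hu; omega
          · rcases Int.emod_two_eq_zero_or_one v with h3 | h3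
            · exfalso
              obtain ⟨w, rfl⟩ := Int.dvd_of_emod_eq_zero h3
              rw [hv] at e7
              have : (2 * w) ^ 2 = 2 * (2 * w ^ 2) := by ring
              omega
            · exact h3
          · rw [← hu, ← hv]; exact e4
      have hP2 : PythagoreanTriple (v ^ 2) (2 * u ^ 2) (|a|) := by
        unfold PythagoreanTriple
        rw [← sq |a|, sq_abs, huv]; ring
      have hv2 : v ^ 2 % 2 = 1 := by
        obtain ⟨w, hw⟩ : ∃ w, v = 2 * w + 1 := ⟨v / 2, by omega⟩
        rw [hw]
        have : (2 * w + 1) ^ 2 = 2 * (2 * w ^ 2 + 2 * w) + 1 := by ring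
        omega
      obtain ⟨g, k, f1, f2, f3, f4, -, f6⟩ := hP2.coprime_classification' hco hv2 (abs_pos.mpr ha0)
      have hgk : g * k = u ^ 2 := by linarith
      have hu2 : 0 < u ^ 2 := by positivity
      have hgpos : 0 < g := by
        rcases lt_or_eq_of_le f6 with h1 | h1
        · exact h1
        · rw [← h1, zero_mul] at hgk; omega
      have hkpos : 0 < k := by
        by_contra hcon
        push Not at hcon
        nlinarith
      obtain ⟨⟨s, hs⟩, t, ht⟩ := sq_of_mul hgpos hkpos f4 hgk
      have hs0 : s ≠ 0 := by rintro rfl; simp at hs; omega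
      have ht0 : t ≠ 0 := by rintro rfl; simp at ht; omega
      refine ih s t v ?_ ht0 (by rintro rfl; simp at hv) ?_ ?_
      · have h1 : |s| ≤ s ^ 2 := by
          rw [← sq_abs]
          nlinarith [abs_pos.mpr hs0]
        have h2 : g < |a| := by
          rw [f3]
          have q1 : g ≤ g ^ 2 := by nlinarith
          have q2 : 0 < k ^ 2 := by positivity
          linarith
        have h3 : |s| < |a| := by rw [hs] at h2; linarith
        rw [Int.abs_eq_natAbs, Int.abs_eq_natAbs] at h3
        omega
      · have h1 : IsCoprime (s ^ 2) (t ^ 2) := by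
          rw [← hs, ← ht]; exact Int.isCoprime_iff_gcd_eq_one.mpr f4
        exact Int.isCoprime_iff_gcd_eq_one.mp ((IsCoprime.pow_iff two_pos two_pos).mp h1)
      · rw [f1, hs, ht]; ring
    · -- `b` odd
      have hb22 : b ^ 2 % 2 = 1 := by
        obtain ⟨w, hw⟩ : ∃ w, b = 2 * w + 1 := ⟨b / 2, by omega⟩
        rw [hw]
        have : (2 * w + 1) ^ 2 = 2 * (2 * w ^ 2 + 2 * w) + 1 := by ring
        omega
      have hP : PythagoreanTriple (b ^ 2) c (a ^ 2) := by
        unfold PythagoreanTriple
        linear_combination -h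
      obtain ⟨m, n, e1, e2, e3, e4, -, e6⟩ := hP.coprime_classification' hgbc hb22 (by positivity)
      have hm0 : m ≠ 0 := by rintro rfl; simp at e2; exact hc e2
      have hn0 : n ≠ 0 := by rintro rfl; simp at e2; exact hc e2
      refine ih m n (a * b) ?_ hn0 (mul_ne_zero ha0 hb) e4 ?_
      · have h1 : m ^ 2 < a ^ 2 := by
          rw [e3]
          have : 0 < n ^ 2 := by positivity
          linarith
        have h2 : |m| < |a| := sq_lt_sq.mp h1
        rw [Int.abs_eq_natAbs, Int.abs_eq_natAbs] at h2
        omega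
      · rw [mul_pow, e1, e3]; ring

end Pool.Agent.L5helper15.SP
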