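import Pool.Agent.N666.VE.FC
import Pool.Agent.L5helper15.SP.FourDiff

set_option autoImplicit false

/-! # Squares: pairs of bases for which no equation with third exponent two exists -/

namespace Pool.Agent.L5helper15.SP

open Finset
open Pool.Agent.N666.VE
open Pool.Agent.H374R2.Beal

/-- no prime `r ≡ 1 (mod 8)` divides `u` such that `v` is not a square modulo `r` -/
def E0 : Set (ℕ × ℕ) := {p | ∀ r ∈ {r : ℕ | r.Prime ∧ 8 ∣ r - 1}, ¬ (r ∣ p.1 ∧ (p.2 : ZMod r) ∈ NonPow 2 r)}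

theorem cn_E0 : CN E0 := by
  have hc : (0 : ℝ) < 1 / (2 * (2 : ℕ)) := by norm_num
  exact cn_core {r : ℕ | r.Prime ∧ 8 ∣ r - 1} (fun r hr => hr.1)
    (primes_one_div 8 (by norm_num)) (fun r => NonPow 2 r) _ hc
    (fun r hr => nonPow_lower le_rfl hr.1 ((by norm_num : (2:ℕ) ∣ 8).trans hr.2))

theorem sq_or_two_sq {m n c : ℤ} (hm : 0 < m) (hn : 0 < n) (h : Int.gcd m n ∣ 2) (he : m * n = c ^ 2) :
    ∃ u : ℤ, m = u ^ 2 ∨ m = 2 * u ^ 2 := by
  have h1 : Int.gcd m n = 1 ∨ Int.gcd m n = 2 := (Nat.dvd_prime Nat.prime_two).mp h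
  rcases h1 with h1 | h1
  · obtain ⟨⟨u, hu⟩, -⟩ := sq_of_mul hm hn h1 he
    exact ⟨u, Or.inl hu⟩
  · obtain ⟨m', hm'⟩ : (2 : ℤ) ∣ m := by
      have := Int.gcd_dvd_left (a := m) (b := n); rw [h1] at this; exact_mod_cast this
    obtain ⟨n', hn'⟩ : (2 : ℤ) ∣ n := by
      have := Int.gcd_dvd_right (a := m) (b := n); rw [h1] at this; exact_mod_cast this
    have hgcd : Int.gcd m' n' = 1 := by
      rw [hm', hn', Int.gcd_mul_left] at h1
      simp at h1
      omega
    have hc2 : (2 : ℤ) ∣ c := by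
      have : (2 : ℤ) ∣ c ^ 2 := by rw [← he, hm']; exact ⟨m' * n, by ring⟩
      exact Int.prime_two.dvd_of_dvd_pow this
    obtain ⟨c', rfl⟩ := hc2
    have he' : m' * n' = c' ^ 2 := by
      rw [hm', hn'] at he
      have : 4 * (m' * n') = 4 * c' ^ 2 := by linear_combination he
      linarith
    obtain ⟨⟨u, hu⟩, -⟩ := sq_of_mul (by omega) (by omega) hgcd he'
    exact ⟨u, Or.inr (by rw [hm', hu])⟩

theorem gcd_sub_add {a b : ℤ} (h : IsCoprime a b) : Int.gcd (a - b) (a + b) ∣ 2 := by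
  have h1 : ((Int.gcd (a - b) (a + b) : ℕ) : ℤ) ∣ 2 * a := by
    have := dvd_add (Int.gcd_dvd_left (a := a - b) (b := a + b)) (Int.gcd_dvd_right (a := a - b) (b := a + b))
    rwa [show a - b + (a + b) = 2 * a by ring] at this
  have h2 : ((Int.gcd (a - b) (a + b) : ℕ) : ℤ) ∣ 2 * b := by
    have := dvd_sub (Int.gcd_dvd_right (a := a - b) (b := a + b)) (Int.gcd_dvd_left (a := a - b) (b := a + b))
    rwa [show a + b - (a - b) = 2 * b by ring] at this
  obtain ⟨s, t, hst⟩ := h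
  have h3 : ((Int.gcd (a - b) (a + b) : ℕ) : ℤ) ∣ 2 := by
    have := dvd_add (h1.mul_left s) (h2.mul_left t)
    rwa [show s * (2 * a) + t * (2 * b) = 2 * (s * a + t * b) by ring, hst, mul_one] at this
  exact_mod_cast h3

/-- the power `Y` is a square modulo `r` -/
theorem is_sq_mod {r : ℕ} (hr : r.Prime) (h8 : 8 ∣ r - 1) {X Y z : ℤ} (hX : 0 < X) (hY : 0 < Y)
    (hz : 0 < z) (hXY : IsCoprime X Y) (hrX : (r : ℤ) ∣ X)
    (h : X ^ 2 + Y ^ 2 = z ^ 2 ∨ X ^ 2 + z ^ 2 = Y ^ 2 ∨ Y ^ 2 + z ^ 2 = X ^ 2) :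
    ∃ t : ZMod r, t ^ 2 = (Y : ZMod r) := by
  have : Fact r.Prime := ⟨hr⟩
  have hr2 := hr.two_le
  have hr8 : r % 8 = 1 := by omega
  obtain ⟨i, hi⟩ : ∃ i : ZMod r, i ^ 2 = -1 := by
    obtain ⟨i, hi⟩ := (ZMod.exists_sq_eq_neg_one_iff (p := r)).mpr (by omega)
    exact ⟨i, by rw [hi]; ring⟩
  obtain ⟨w, hw⟩ : ∃ w : ZMod r, w ^ 2 = 2 := by
    obtain ⟨w, hw⟩ := (ZMod.exists_sq_eq_two_iff (p := r) (by omega)).mpr (Or.inl hr8)
    exact ⟨w, by rw [hw]; ring⟩
  have hX0 : (X : ZMod r) = 0 := (ZMod.intCast_zmod_eq_zero_iff_dvd _ _).mpr hrX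
  have key : ∀ m : ℤ, (∃ u : ℤ, m = u ^ 2 ∨ m = 2 * u ^ 2) → ((m : ZMod r) = Y ∨ (m : ZMod r) = -Y) →
      ∃ t : ZMod r, t ^ 2 = (Y : ZMod r) := by
    rintro m ⟨u, hu | hu⟩ h1
    · rcases h1 with h1 | h1
      · exact ⟨u, by rw [← h1, hu]; push_cast; ring⟩
      · refine ⟨i * u, ?_⟩
        have : (Y : ZMod r) = -(m : ZMod r) := by rw [h1]; ring
        rw [this, hu, mul_pow, hi]; push_cast; ring
    · rcases h1 with h1 | h1
      · refine ⟨w * u, ?_⟩
        rw [← h1, hu, mul_pow, hw]; push_cast; ring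
      · refine ⟨i * w * u, ?_⟩
        have : (Y : ZMod r) = -(m : ZMod r) := by rw [h1]; ring
        rw [this, hu, mul_pow, mul_pow, hi, hw]; push_cast; ring
  rcases h with h | h | h
  · -- `(z - X) (z + X) = Y ^ 2`
    have hcop : IsCoprime z X := by
      have h1 : IsCoprime (z ^ 2) (X ^ 2) := by
        rw [← h]
        have := (hXY.symm.pow (m := 2) (n := 2)).add_mul_left_left 1
        rwa [show Y ^ 2 + X ^ 2 * 1 = X ^ 2 + Y ^ 2 by ring] at this
      exact (IsCoprime.pow_iff two_pos two_pos).mp h1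
    have hzX : X < z := by
      have : X ^ 2 < z ^ 2 := by rw [← h]; have : 0 < Y ^ 2 := by positivity
                                 linarith
      exact lt_of_pow_lt_pow_left₀ 2 hz.le this
    apply key (z - X) (sq_or_two_sq (by omega) (by omega) (gcd_sub_add hcop) (c := Y) (by linear_combination -h))
    have h2 : ((z : ZMod r) - Y) * (z + Y) = 0 := by
      have := congrArg (fun a : ℤ => (a : ZMod r)) h
      push_cast at this
      rw [hX0] at this
      linear_combination -this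
    push_cast
    rw [hX0, sub_zero]
    rcases mul_eq_zero.mp h2 with h3 | h3
    · left; linear_combination h3
    · right; linear_combination h3
  · have hYX : X < Y := by
      have : X ^ 2 < Y ^ 2 := by rw [← h]; have : 0 < z ^ 2 := by positivity
                                 linarith
      exact lt_of_pow_lt_pow_left₀ 2 hY.le this
    apply key (Y - X) (sq_or_two_sq (by omega) (by omega) (gcd_sub_add hXY.symm) (c := z) (by linear_combination -h))
    left
    push_cast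
    rw [hX0, sub_zero]
  · have hYX : Y < X := by
      have : Y ^ 2 < X ^ 2 := by rw [← h]; have : 0 < z ^ 2 := by positivity
                                 linarith
      exact lt_of_pow_lt_pow_left₀ 2 hX.le this
    apply key (X - Y) (sq_or_two_sq (by omega) (by omega) (gcd_sub_add hXY) (c := z) (by linear_combination -h))
    right
    push_cast
    rw [hX0, zero_sub]

/-- one of the exponents is divisible by four -/
theorem even_of {x y a b z : ℕ} (hx : 1 ≤ x) (hy : 1 ≤ y) (hz : 1 ≤ z) (hco : Nat.Coprime x y)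
    (ha : 1 ≤ a) (h0 : (x, y) ∉ E0)
    (h : x ^ (2 * a) + y ^ (2 * b) = z ^ 2 ∨ x ^ (2 * a) + z ^ 2 = y ^ (2 * b) ∨
      y ^ (2 * b) + z ^ 2 = x ^ (2 * a)) : 2 ∣ b := by
  unfold E0 at h0
  simp only [Set.mem_ofPred_eq, not_forall, not_not] at h0
  obtain ⟨r, ⟨hr, h8⟩, hrx, hv⟩ := h0
  have : Fact r.Prime := ⟨hr⟩
  have h' : ((x : ℤ) ^ a) ^ 2 + ((y : ℤ) ^ b) ^ 2 = (z : ℤ) ^ 2 ∨
      ((x : ℤ) ^ a) ^ 2 + (z : ℤ) ^ 2 = ((y : ℤ) ^ b) ^ 2 ∨
      ((y : ℤ) ^ b) ^ 2 + (z : ℤ) ^ 2 = ((x : ℤ) ^ a) ^ 2 := by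
    rcases h with h | h | h
    · left
      have := congrArg (fun n : ℕ => (n : ℤ)) h
      push_cast at this
      rw [← pow_mul, ← pow_mul, mul_comm a 2, mul_comm b 2]; exact this
    · right; left
      have := congrArg (fun n : ℕ => (n : ℤ)) h
      push_cast at this
      rw [← pow_mul, ← pow_mul, mul_comm a 2, mul_comm b 2]; exact this
    · right; right
      have := congrArg (fun n : ℕ => (n : ℤ)) h
      push_cast at this
      rw [← pow_mul, ← pow_mul, mul_comm a 2, mul_comm b 2]; exact this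
  have hx' : (0 : ℤ) < x := by exact_mod_cast hx
  have hy' : (0 : ℤ) < y := by exact_mod_cast hy
  obtain ⟨t, ht⟩ := is_sq_mod hr h8 (pow_pos hx' a) (pow_pos hy' b) (by exact_mod_cast hz)
    ((Nat.isCoprime_iff_coprime.mpr hco).pow) (by
      have : (r : ℤ) ∣ (x : ℤ) := by exact_mod_cast hrx
      exact this.trans (dvd_pow_self _ (by omega))) h'
  refine dvd_of_pow_isPow Nat.prime_two hv (s := t) ?_
  rw [ht]
  push_cast
  ring

/-- no solutions with squares -/
theorem no_squares {x y a b z : ℕ} (hx : 1 ≤ x) (hy : 1 ≤ y) (hz : 1 ≤ z) (hco : Nat.Coprime x y)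
    (ha : 1 ≤ a) (hb : 1 ≤ b) (h0 : (x, y) ∉ E0) (h1 : (y, x) ∉ E0) :
    ¬ (x ^ (2 * a) + y ^ (2 * b) = z ^ 2 ∨ x ^ (2 * a) + z ^ 2 = y ^ (2 * b) ∨
      y ^ (2 * b) + z ^ 2 = x ^ (2 * a)) := by
  intro h
  obtain ⟨b', rfl⟩ := even_of hx hy hz hco ha h0 h
  obtain ⟨a', rfl⟩ := even_of hy hx hz hco.symm hb h1 (b := a) (by
    rcases h with h | h | h
    · left; rw [add_comm]; exact h
    · right; right; exact h
    · right; left; exact h)
  have hx0 : (x : ℤ) ^ a' ≠ 0 := pow_ne_zero _ (by omega)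
  have hy0 : (y : ℤ) ^ b' ≠ 0 := pow_ne_zero _ (by omega)
  have hz0 : (z : ℤ) ≠ 0 := by omega
  have hco' : IsCoprime ((x : ℤ) ^ a') ((y : ℤ) ^ b') := (Nat.isCoprime_iff_coprime.mpr hco).pow
  rcases h with h | h | h
  · have := congrArg (fun n : ℕ => (n : ℤ)) h
    push_cast at this
    refine not_fermat_42 hx0 hy0 (c := z) ?_
    rw [← pow_mul, ← pow_mul, ← this]
    ring
  · have := congrArg (fun n : ℕ => (n : ℤ)) h
    push_cast at this
    refine four_diff _ ((y : ℤ) ^ b') ((x : ℤ) ^ a') z le_rfl hx0 hz0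
      (Int.isCoprime_iff_gcd_eq_one.mp hco'.symm) ?_
    rw [← pow_mul, ← pow_mul]
    linear_combination -this
  · have := congrArg (fun n : ℕ => (n : ℤ)) h
    push_cast at this
    refine four_diff _ ((x : ℤ) ^ a') ((y : ℤ) ^ b') z le_rfl hy0 hz0
      (Int.isCoprime_iff_gcd_eq_one.mp hco') ?_
    rw [← pow_mul, ← pow_mul]
    linear_combination -this

end Pool.Agent.L5helper15.SP
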