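import Pool.Agent.N666.VE.FC
import Pool.Agent.L5helper15.SP.Square

set_option autoImplicit false

/-! # The Fermat-Catalan equation with two bases in a sparse set of pairs -/

namespace Pool.Agent.L5helper15.SP

open Finset
open Pool.Agent.N666.VE
open Pool.Agent.H374R2.Beal (Exceptional)
open Pool.Agent.H374R2.T (Good2)

/-- `x` and `y` are coprime and two of the three bases of a solution with exponents at least two
and third base at most `W` -/
def Bad (W : ℝ) (x y : ℕ) : Prop := ∃ z p q r : ℕ, 1 ≤ x ∧ 1 ≤ y ∧ Nat.Coprime x y ∧ 1 ≤ z ∧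
  (z : ℝ) ≤ W ∧ 2 ≤ p ∧ 2 ≤ q ∧ 2 ≤ r ∧
  (x ^ p + y ^ q = z ^ r ∨ x ^ p + z ^ r = y ^ q ∨ y ^ q + z ^ r = x ^ p)

/-- the exceptional pairs for third exponents smaller than `R` -/
def Sm (R : ℕ) : Set (ℕ × ℕ) := ({p | ∃ n, 3 ≤ n ∧ n < R ∧ p ∈ Exceptional n} ∪
  ({p | ¬ Good2 p.1 p.2} ∪ Prod.swap ⁻¹' {p | ¬ Good2 p.1 p.2})) ∪ (E0 ∪ Prod.swap ⁻¹' E0)

theorem cn_Sm (R : ℕ) : CN (Sm R) := (cn_small R).union (cn_E0.union cn_E0.swap)

/-- a bad pair either has a small third exponent and is exceptional, or is one of few pairs -/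
theorem split {R N' : ℕ} {W : ℝ} {x y : ℕ} (hx : x ≤ N') (hy : y ≤ N') (h : Bad W x y) :
    (x, y) ∈ Sm R ∨
    (x, y) ∈ (fun v : ℕ × ℕ × ℕ × ℕ × ℕ => (v.1, v.2.1)) '' (Pool.Agent.N741.LD.Sols N' R W) := by
  obtain ⟨z, p, q, r, hx0, hy0, hco, hz, hzW, hp, hq, hr, heq⟩ := h
  rcases Nat.lt_or_ge r R with hrR | hrR
  · left
    rcases Nat.lt_or_ge r 3 with hr3 | hr3
    · have hr2 : r = 2 := by omega
      by_contra hcon
      unfold Sm at hcon
      rw [Set.mem_union, not_or, Set.mem_union, not_or, Set.mem_union, not_or, Set.mem_union, not_or] at hcon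
      obtain ⟨⟨-, h1, h2⟩, h3, h4⟩ := hcon
      simp only [Set.mem_ofPred_eq, not_not, Set.mem_preimage, Prod.swap_prod_mk] at h1 h2 h4
      rw [hr2] at heq
      have e1 : 2 ∣ q := Pool.Agent.H374R2.T.Good2.even (m := 1) (w := z) (x := p) h1 (by omega)
        (by rw [mul_one]; exact heq)
      have e2 : 2 ∣ p := Pool.Agent.H374R2.T.Good2.even (m := 1) (w := z) (x := q) h2 (by omega)
        (by
          rw [mul_one]
          rcases heq with h | h | h
          · left; rw [add_comm]; exact h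
          · right; right; exact h
          · right; left; exact h)
      obtain ⟨b, rfl⟩ := e1
      obtain ⟨a, rfl⟩ := e2
      exact no_squares hx0 hy0 hz hco (by omega) (by omega) h3 h4 heq
    · left; left
      exact ⟨r, hr3, hrR, hx0, hy0, hco, p, q, z, by omega, by omega, by omega, heq⟩
  · right
    exact ⟨(x, y, x ^ p, y ^ q, z ^ r),
      ⟨x, y, z, p, q, r, hx0, hx, hy0, hy, hco, hz, hzW, hp, hq, hrR, heq, rfl⟩, rfl⟩

/-- the exceptional set of residue classes, and few other pairs -/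
theorem cover (K : ℕ) (ε : ℝ) (hε : 0 < ε) : ∃ R : ℕ, ∃ c : ℝ, 0 < c ∧ ∃ N₀ : ℕ, ∀ N : ℕ, N₀ ≤ N →
    ∃ T : Finset (ℕ × ℕ), (T.card : ℝ) ≤ (N : ℝ) ^ ε ∧ ∀ x y : ℕ, x ≤ N ^ K → y ≤ N ^ K →
      Bad (Real.exp ((N : ℝ) ^ c)) x y → (x, y) ∈ Sm R ∨ (x, y) ∈ T := by
  classical
  obtain ⟨R, c, N₂, hc, hL⟩ := Pool.Agent.N741.LD.main (ε / (K + 1)) (by positivity)
  refine ⟨R, c, hc, N₂ + 1, fun N hN => ?_⟩
  have hN1 : (1 : ℝ) ≤ N := by exact_mod_cast (by omega : 1 ≤ N)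
  have hN0 : (0 : ℝ) < N := by linarith
  have hN'N : N ≤ N ^ (K + 1) := Nat.le_self_pow (by omega) N
  obtain ⟨hfin, hnc⟩ := hL (N ^ (K + 1)) (by omega)
  set Q : Set (ℕ × ℕ × ℕ × ℕ × ℕ) :=
    Pool.Agent.N741.LD.Sols (N ^ (K + 1)) R (Real.exp (((N ^ (K + 1) : ℕ) : ℝ) ^ c)) with hQ
  refine ⟨hfin.toFinset.image (fun v => (v.1, v.2.1)), ?_, fun x y hx hy hbad => ?_⟩
  · have h1 : (hfin.toFinset.image (fun v => (v.1, v.2.1))).card ≤ Q.ncard := by
      rw [Set.ncard_eq_toFinset_card Q hfin]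
      exact Finset.card_image_le
    have h2 : ((hfin.toFinset.image (fun v => (v.1, v.2.1))).card : ℝ) ≤
        ((N ^ (K + 1) : ℕ) : ℝ) ^ (ε / (K + 1)) := by
      refine le_trans ?_ hnc
      exact_mod_cast h1
    refine h2.trans (le_of_eq ?_)
    push_cast
    rw [← Real.rpow_natCast, ← Real.rpow_mul hN0.le]
    congr 1
    push_cast
    field_simp
  · have hpow : N ^ K ≤ N ^ (K + 1) := Nat.pow_le_pow_right (by omega) (by omega)
    rcases split (R := R) (N' := N ^ (K + 1)) (hx.trans hpow) (hy.trans hpow) hbad with h | h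
    · exact Or.inl h
    · right
      obtain ⟨v, hv, hvxy⟩ := h
      rw [Finset.mem_image]
      refine ⟨v, ?_, hvxy⟩
      rw [Set.Finite.mem_toFinset, hQ]
      obtain ⟨x', y', z, p, q, r, h1, h2, h3, h4, h5, h6, h7, h8⟩ := hv
      refine ⟨x', y', z, p, q, r, h1, h2, h3, h4, h5, h6, h7.trans ?_, h8⟩
      rw [Real.exp_le_exp]
      gcongr

theorem small_T {N : ℕ} (hN1 : (1 : ℝ) ≤ N) {ε : ℝ} (hε : 0 < ε) {A T : ℕ}
    (hL : 2 / ε ≤ (N : ℝ) ^ (ε / 2)) (hcard : (N : ℝ) ^ ε ≤ A) (hT : (T : ℝ) ≤ (N : ℝ) ^ (ε / 2)) :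
    (T : ℝ) ≤ ε / 2 * A := by
  have hN0 : (0 : ℝ) < N := by linarith
  have h7 : (N : ℝ) ^ ε = (N : ℝ) ^ (ε / 2) * (N : ℝ) ^ (ε / 2) := by
    rw [← Real.rpow_add hN0]; congr 1; ring
  calc (T : ℝ) ≤ (N : ℝ) ^ (ε / 2) := hT
    _ = ε / 2 * (2 / ε * (N : ℝ) ^ (ε / 2)) := by field_simp
    _ ≤ ε / 2 * ((N : ℝ) ^ (ε / 2) * (N : ℝ) ^ (ε / 2)) := by gcongr
    _ = ε / 2 * (N : ℝ) ^ ε := by rw [h7]
    _ ≤ ε / 2 * A := by gcongr

/-- **fair sets of pairs** -/
theorem fair (K : ℕ) (C ε : ℝ) (hC : 0 < C) (hε : 0 < ε) : ∃ M : ℕ, 1 ≤ M ∧ ∃ c : ℝ, 0 < c ∧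
    ∃ N₀ : ℕ, ∀ N : ℕ, N₀ ≤ N → ∀ A : Finset (ℕ × ℕ), (∀ v ∈ A, v.1 ≤ N ^ K ∧ v.2 ≤ N ^ K) →
      (N : ℝ) ^ ε ≤ A.card →
      (∀ i j : ℕ, ((A.filter (fun v => v.1 % M = i ∧ v.2 % M = j)).card : ℝ) ≤
        C * A.card / (M : ℝ) ^ 2) →
      ∀ P : ℕ × ℕ → Prop, ∀ [DecidablePred P],
      (∀ v ∈ A, P v → Bad (Real.exp ((N : ℝ) ^ c)) v.1 v.2) →
      ((A.filter P).card : ℝ) ≤ ε * A.card := by
  classical
  obtain ⟨R, c, hc, N₁, h1⟩ := cover K (ε / 2) (by positivity)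
  obtain ⟨M, hM, S, hS1, hS2, hS3⟩ := cn_Sm R (ε / (2 * C)) (by positivity)
  have hM0 : (0 : ℝ) < M := by exact_mod_cast hM
  obtain ⟨L, hL⟩ := Pool.Agent.N741.PB.ev_rpow (show 0 < ε / 2 by positivity) (2 / ε)
  refine ⟨M, hM, c, hc, N₁ + L + 1, fun N hN A hA hcard hfair P _ hP => ?_⟩
  have hN1 : (1 : ℝ) ≤ N := by exact_mod_cast (by omega : 1 ≤ N)
  obtain ⟨T, hT, hcov⟩ := h1 N (by omega)
  have hsub : A.filter P ⊆ (S.biUnion (fun s => A.filter (fun v => v.1 % M = s.1 ∧ v.2 % M = s.2))) ∪ T := by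
    intro v hv
    rw [Finset.mem_filter] at hv
    obtain ⟨h2, h3⟩ := hv
    rw [Finset.mem_union]
    rcases hcov v.1 v.2 (hA v h2).1 (hA v h2).2 (hP v h2 h3) with h | h
    · left
      rw [Finset.mem_biUnion]
      exact ⟨_, hS3 _ h, Finset.mem_filter.mpr ⟨h2, rfl, rfl⟩⟩
    · right; exact h
  have h2 : ((A.filter P).card : ℝ) ≤
      ((S.biUnion (fun s => A.filter (fun v => v.1 % M = s.1 ∧ v.2 % M = s.2))).card : ℝ) + T.card := by
    exact_mod_cast (Finset.card_le_card hsub).trans (Finset.card_union_le _ _)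
  have h3 : ((S.biUnion (fun s => A.filter (fun v => v.1 % M = s.1 ∧ v.2 % M = s.2))).card : ℝ) ≤
      ε / 2 * A.card := by
    have h4 : ((S.biUnion (fun s => A.filter (fun v => v.1 % M = s.1 ∧ v.2 % M = s.2))).card : ℝ) ≤
        ∑ s ∈ S, ((A.filter (fun v => v.1 % M = s.1 ∧ v.2 % M = s.2)).card : ℝ) := by
      exact_mod_cast Finset.card_biUnion_le
    refine h4.trans ((Finset.sum_le_sum fun s _ => hfair s.1 s.2).trans ?_)
    rw [Finset.sum_const, nsmul_eq_mul]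
    calc (S.card : ℝ) * (C * A.card / (M : ℝ) ^ 2) ≤
        (ε / (2 * C) * (M : ℝ) ^ 2) * (C * A.card / (M : ℝ) ^ 2) := by gcongr
      _ = ε / 2 * A.card := by field_simp
  have h5 : (T.card : ℝ) ≤ ε / 2 * A.card := small_T hN1 hε (hL N (by omega)) hcard hT
  linarith

/-- integers of an interval in a residue class -/
theorem card_class (a H M i x : ℕ) (hM : 1 ≤ M) (hMH : M ≤ H) :
    (((Finset.Ico a (a + H)).filter (fun h => (x + h) % M = i)).card : ℝ) ≤ 3 * H / M := by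
  have hM0 : (0 : ℝ) < M := by exact_mod_cast hM
  have h1 : ((Finset.Ico a (a + H)).filter (fun h => (x + h) % M = i)).card ≤
      (Finset.Icc ((x + a) / M) ((x + a + H) / M)).card := by
    apply Finset.card_le_card_of_injOn (fun h => (x + h) / M)
    · intro h hh
      rw [Finset.mem_coe, Finset.mem_filter, Finset.mem_Ico] at hh
      rw [Finset.mem_coe, Finset.mem_Icc]
      exact ⟨Nat.div_le_div_right (by omega), Nat.div_le_div_right (by omega)⟩
    · intro h hh h' hh' he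
      rw [Finset.mem_coe, Finset.mem_filter] at hh hh'
      simp only at he
      have e1 := Nat.mod_add_div (x + h) M
      have e2 := Nat.mod_add_div (x + h') M
      rw [hh.2, he] at e1
      rw [hh'.2] at e2
      omega
  rw [Nat.card_Icc] at h1
  have h2 : (((x + a + H) / M : ℕ) : ℝ) ≤ ((x : ℝ) + a + H) / M := by
    have := Nat.cast_div_le (α := ℝ) (m := x + a + H) (n := M)
    push_cast at this
    exact this
  have h3 : ((x : ℝ) + a) / M - 1 ≤ (((x + a) / M : ℕ) : ℝ) := by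
    have h4 := Nat.lt_div_mul_add (a := x + a) (b := M) hM
    have h5 : ((x : ℝ) + a) < ((x + a) / M : ℕ) * M + M := by exact_mod_cast h4
    rw [sub_le_iff_le_add, div_le_iff₀ hM0]
    nlinarith
  have h4 : (((Finset.Ico a (a + H)).filter (fun h => (x + h) % M = i)).card : ℝ) ≤
      ((x + a + H) / M : ℕ) + 1 - ((x + a) / M : ℕ) := by
    have h5 : ((Finset.Ico a (a + H)).filter (fun h => (x + h) % M = i)).card + (x + a) / M ≤
        (x + a + H) / M + 1 := by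
      have h6 : (x + a) / M ≤ (x + a + H) / M := Nat.div_le_div_right (by omega)
      omega
    have h7 : ((((Finset.Ico a (a + H)).filter (fun h => (x + h) % M = i)).card : ℝ)) +
        ((x + a) / M : ℕ) ≤ ((x + a + H) / M : ℕ) + 1 := by exact_mod_cast h5
    linarith
  have h5 : (1 : ℝ) ≤ (H : ℝ) / M := by
    rw [le_div_iff₀ hM0, one_mul]; exact_mod_cast hMH
  have h6 : ((x : ℝ) + a + H) / M = ((x : ℝ) + a) / M + H / M := by ring
  calc _ ≤ (H : ℝ) / M + 2 := by linarith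
    _ ≤ (H : ℝ) / M + 2 * (H / M) := by linarith
    _ = 3 * H / M := by ring

/-- **shifts of arbitrary sets of pairs** -/
theorem shifts (K : ℕ) (ε : ℝ) (hε : 0 < ε) : ∃ M : ℕ, 1 ≤ M ∧ ∃ c : ℝ, 0 < c ∧
    ∃ N₀ : ℕ, ∀ N : ℕ, N₀ ≤ N → ∀ A : Finset (ℕ × ℕ), (∀ v ∈ A, v.1 ≤ N ^ K ∧ v.2 ≤ N ^ K) →
      (N : ℝ) ^ ε ≤ A.card → ∀ a b X Y : ℕ, M ≤ X → M ≤ Y → a + X ≤ N ^ K → b + Y ≤ N ^ K →
      ∀ P : ℕ × ℕ → Prop, ∀ [DecidablePred P],
      (∀ v : ℕ × ℕ, P v → Bad (Real.exp ((N : ℝ) ^ c)) v.1 v.2) →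
      (((Finset.Ico a (a + X) ×ˢ Finset.Ico b (b + Y)).filter
        (fun h => ε * A.card < (A.filter (fun v => P (v.1 + h.1, v.2 + h.2))).card)).card : ℝ) ≤
          ε * (X * Y) := by
  classical
  obtain ⟨R, c, hc, N₁, h1⟩ := cover (K + 1) (ε / 2) (by positivity)
  obtain ⟨M, hM, S, hS1, hS2, hS3⟩ := cn_Sm R (ε ^ 2 / 18) (by positivity)
  have hM0 : (0 : ℝ) < M := by exact_mod_cast hM
  obtain ⟨L, hL⟩ := Pool.Agent.N741.PB.ev_rpow (show 0 < ε / 2 by positivity) (2 / ε)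
  refine ⟨M, hM, c, hc, N₁ + L + 2, fun N hN A hA hcard a b X Y hMX hMY haX hbY P _ hP => ?_⟩
  have hN1 : (1 : ℝ) ≤ N := by exact_mod_cast (by omega : 1 ≤ N)
  obtain ⟨T, hT, hcov⟩ := h1 N (by omega)
  have hA0 : (0 : ℝ) < A.card := lt_of_lt_of_le (Real.rpow_pos_of_pos (by linarith) _) hcard
  set I := Finset.Ico a (a + X) with hI
  set J := Finset.Ico b (b + Y) with hJ
  set BadS : ℕ × ℕ → Finset (ℕ × ℕ) := fun h =>
    A.filter (fun v => ((v.1 + h.1) % M, (v.2 + h.2) % M) ∈ S) with hBadS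
  have hpw : ∀ h ∈ I ×ˢ J, ((A.filter (fun v => P (v.1 + h.1, v.2 + h.2))).card : ℝ) ≤
      (BadS h).card + T.card := by
    intro h hh
    rw [Finset.mem_product, hI, hJ, Finset.mem_Ico, Finset.mem_Ico] at hh
    have hsub : A.filter (fun v => P (v.1 + h.1, v.2 + h.2)) ⊆
        BadS h ∪ A.filter (fun v => (v.1 + h.1, v.2 + h.2) ∈ T) := by
      intro v hv
      rw [Finset.mem_filter] at hv
      obtain ⟨h2, h3⟩ := hv
      have hpow : N ^ K + N ^ K ≤ N ^ (K + 1) := by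
        rw [pow_succ]
        have : 0 < N ^ K := Nat.pow_pos (by omega)
        nlinarith
      rw [Finset.mem_union]
      rcases hcov (v.1 + h.1) (v.2 + h.2) (by have := (hA v h2).1; omega)
        (by have := (hA v h2).2; omega) (hP _ h3) with h4 | h4
      · left
        exact Finset.mem_filter.mpr ⟨h2, hS3 _ h4⟩
      · right; exact Finset.mem_filter.mpr ⟨h2, h4⟩
    have h3 : (A.filter (fun v => (v.1 + h.1, v.2 + h.2) ∈ T)).card ≤ T.card := by
      apply Finset.card_le_card_of_injOn (fun v => (v.1 + h.1, v.2 + h.2))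
      · intro v hv
        exact (Finset.mem_filter.mp (Finset.mem_coe.mp hv)).2
      · intro v _ w _ hvw
        simp only [Prod.mk.injEq] at hvw
        exact Prod.ext (by omega) (by omega)
    exact_mod_cast (Finset.card_le_card hsub).trans
      ((Finset.card_union_le _ _).trans (Nat.add_le_add_left h3 _))
  have hT' : (T.card : ℝ) ≤ ε / 2 * A.card := small_T hN1 hε (hL N (by omega)) hcard hT
  -- the average over the shifts
  have havg : (∑ h ∈ I ×ˢ J, ((BadS h).card : ℝ)) ≤ ε ^ 2 / 2 * (X * Y) * A.card := by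
    have e1 : (∑ h ∈ I ×ˢ J, ((BadS h).card : ℝ)) = ∑ v ∈ A, (((I ×ˢ J).filter
        (fun h => ((v.1 + h.1) % M, (v.2 + h.2) % M) ∈ S)).card : ℝ) := by
      simp only [hBadS, Finset.card_filter, Nat.cast_sum]
      rw [Finset.sum_comm]
    rw [e1]
    have e2 : ∀ v ∈ A, (((I ×ˢ J).filter
        (fun h => ((v.1 + h.1) % M, (v.2 + h.2) % M) ∈ S)).card : ℝ) ≤ ε ^ 2 / 2 * (X * Y) := by
      intro v _
      have e3 : ((I ×ˢ J).filter (fun h => ((v.1 + h.1) % M, (v.2 + h.2) % M) ∈ S)) ⊆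
          S.biUnion (fun s => (I.filter (fun h => (v.1 + h) % M = s.1)) ×ˢ
            (J.filter (fun h => (v.2 + h) % M = s.2))) := by
        intro h hh
        rw [Finset.mem_filter, Finset.mem_product] at hh
        rw [Finset.mem_biUnion]
        refine ⟨_, hh.2, ?_⟩
        rw [Finset.mem_product, Finset.mem_filter, Finset.mem_filter]
        exact ⟨⟨hh.1.1, rfl⟩, hh.1.2, rfl⟩
      have e4 : (((I ×ˢ J).filter (fun h => ((v.1 + h.1) % M, (v.2 + h.2) % M) ∈ S)).card : ℝ) ≤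
          ∑ s ∈ S, (((I.filter (fun h => (v.1 + h) % M = s.1)).card : ℝ) *
            ((J.filter (fun h => (v.2 + h) % M = s.2)).card : ℝ)) := by
        have := (Finset.card_le_card e3).trans Finset.card_biUnion_le
        simp only [Finset.card_product] at this
        exact_mod_cast this
      refine e4.trans ((Finset.sum_le_sum fun s _ => mul_le_mul
        (card_class a X M s.1 v.1 hM hMX) (card_class b Y M s.2 v.2 hM hMY)
        (Nat.cast_nonneg _) (by positivity)).trans ?_)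
      rw [Finset.sum_const, nsmul_eq_mul]
      calc (S.card : ℝ) * (3 * X / M * (3 * Y / M)) ≤
          (ε ^ 2 / 18 * (M : ℝ) ^ 2) * (3 * X / M * (3 * Y / M)) := by gcongr
        _ = ε ^ 2 / 2 * (X * Y) := by field_simp; ring
    refine (Finset.sum_le_sum e2).trans (le_of_eq ?_)
    rw [Finset.sum_const, nsmul_eq_mul]
    ring
  set F := (I ×ˢ J).filter
    (fun h => ε * A.card < (A.filter (fun v => P (v.1 + h.1, v.2 + h.2))).card) with hF
  have hlow : (F.card : ℝ) * (ε / 2 * A.card) ≤ ∑ h ∈ I ×ˢ J, ((BadS h).card : ℝ) := by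
    calc (F.card : ℝ) * (ε / 2 * A.card) = ∑ _h ∈ F, (ε / 2 * A.card) := by
          rw [Finset.sum_const, nsmul_eq_mul]
      _ ≤ ∑ h ∈ F, ((BadS h).card : ℝ) := by
          apply Finset.sum_le_sum
          intro h hh
          rw [hF, Finset.mem_filter] at hh
          have := hpw h hh.1
          linarith [hh.2]
      _ ≤ _ := Finset.sum_le_sum_of_subset_of_nonneg (Finset.filter_subset _ _)
          (fun _ _ _ => Nat.cast_nonneg _)
  have h5 : (F.card : ℝ) * (ε / 2 * A.card) ≤ (ε * (X * Y)) * (ε / 2 * A.card) := by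
    refine (hlow.trans havg).trans (le_of_eq ?_)
    ring
  exact le_of_mul_le_mul_right h5 (by positivity)

end Pool.Agent.L5helper15.SP
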